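import Pool.Agent.Y803.SEL.Stm

/-! Inertia and decomposition groups in a subfield of the field of the `f`-th roots of unity. -/

set_option autoImplicit false

namespace Pool.Agent.Y674.SEL.Cyc

open NumberField Polynomial

section ring

variable {R : Type*} [CommRing R] [IsDomain R]

theorem eq_one_of_mem {P : Ideal R} {f : ℕ} (hf : (f : R) ∉ P) {w : R} (hw : w ^ f = 1)
    (h : w - 1 ∈ P) : w = 1 := by
  by_contra hne
  apply hf
  have h1 : (∑ i ∈ Finset.range f, w ^ i) * (w - 1) = 0 := by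
    rw [geom_sum_mul, hw, sub_self]
  have h2 : (∑ i ∈ Finset.range f, w ^ i) = 0 := by
    rcases mul_eq_zero.1 h1 with h | h
    · exact h
    · exact absurd (sub_eq_zero.1 h) hne
  have h3 : (f : R) = - ∑ i ∈ Finset.range f, (w ^ i - 1) := by
    rw [Finset.sum_sub_distrib, h2]
    simp
  rw [h3]
  refine P.neg_mem (P.sum_mem fun i _ => ?_)
  rw [← mul_geom_sum]
  exact P.mul_mem_right _ h

theorem eq_of_sub_mem {P : Ideal R} {f : ℕ} (hf0 : f ≠ 0) (hf : (f : R) ∉ P) {z w : R}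
    (hz : z ^ f = 1) (hw : w ^ f = 1) (h : z - w ∈ P) : z = w := by
  obtain ⟨n, rfl⟩ := Nat.exists_eq_succ_of_ne_zero hf0
  have h1 : w ^ n * w = 1 := by rw [← pow_succ]; exact hw
  have h2 : (z * w ^ n) = 1 := by
    apply eq_one_of_mem hf
    · rw [mul_pow, hz, one_mul, ← pow_mul, mul_comm, pow_mul, hw, one_pow]
    · have : z * w ^ n - 1 = w ^ n * (z - w) := by
        rw [mul_sub, h1]; ring
      rw [this]
      exact P.mul_mem_left _ h
  calc z = z * (w ^ n * w) := by rw [h1, mul_one]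
    _ = (z * w ^ n) * w := by ring
    _ = w := by rw [h2, one_mul]

end ring

section frob

variable {k : Type*} [Field k] {l : ℕ} [Fact l.Prime] [CharP k l]

/-- An element of a field of characteristic `l` which is fixed by the Frobenius map is fixed by
every endomorphism. -/
theorem fixed_of_pow (ψ : k →+* k) {c : k} (hc : c ^ l = c) : ψ c = c := by
  have h : c ∈ (⊥ : Subfield k) := (Subfield.mem_bot_iff_pow_eq_self k l).2 hc
  have h2 : (⊥ : Subfield k) ≤ ψ.eqLocusField (RingHom.id k) := bot_le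
  exact h2 h

theorem root_frob (ψ : k →+* k) {z : k} {n : ℕ} (hn : 0 < n) (hz : z ^ l ^ n = z) :
    ∃ i : ℕ, ψ z = z ^ l ^ i := by
  classical
  set Q : k[X] := ∏ i ∈ Finset.range n, (X - C (z ^ l ^ i)) with hQ
  have hfrob : Q.map (frobenius k l) = Q := by
    rw [hQ, Polynomial.map_prod]
    have h1 : ∀ i, (X - C (z ^ l ^ i)).map (frobenius k l) = X - C (z ^ l ^ (i + 1)) := by
      intro i
      rw [Polynomial.map_sub, Polynomial.map_X, Polynomial.map_C, frobenius_def, ← pow_mul,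
        ← pow_succ]
    simp only [h1]
    obtain ⟨N, rfl⟩ : ∃ N, n = N + 1 := ⟨n - 1, by omega⟩
    rw [Finset.prod_range_succ, Finset.prod_range_succ' (fun i => X - C (z ^ l ^ i)), hz]
    simp
  have hψ : Q.map ψ = Q := by
    ext i
    rw [Polynomial.coeff_map]
    apply fixed_of_pow (l := l)
    have := congrArg (fun p => p.coeff i) hfrob
    simpa [Polynomial.coeff_map, frobenius_def] using this
  have hroot : Q.eval z = 0 := by
    rw [hQ, Polynomial.eval_prod]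
    refine Finset.prod_eq_zero (Finset.mem_range.2 hn) ?_
    simp
  have h2 : Q.eval (ψ z) = 0 := by
    rw [← hψ, Polynomial.eval_map, Polynomial.eval₂_hom, hroot, map_zero]
  rw [hQ, Polynomial.eval_prod, Finset.prod_eq_zero_iff] at h2
  obtain ⟨i, -, hi⟩ := h2
  exact ⟨i, by simpa [sub_eq_zero] using hi⟩

end frob

section smul

variable {R : Type*} [CommRing R]

theorem notMem {f l : ℕ} (hlf : l.Coprime f) {P : Ideal R} (hP : P.IsMaximal)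
    (hlP : (l : R) ∈ P) : (f : R) ∉ P := by
  intro h
  apply hP.ne_top
  rw [Ideal.eq_top_iff_one]
  have h1 : (((l : ℤ) * l.gcdA f + f * l.gcdB f : ℤ) : R) = 1 := by
    rw [← Nat.gcd_eq_gcd_ab, hlf]
    simp
  rw [← h1]
  push_cast
  exact P.add_mem (P.mul_mem_right _ hlP) (P.mul_mem_right _ h)

theorem decomp {G : Type*} [Group G] [IsDomain R] [MulSemiringAction G R] {f l : ℕ} (hf0 : f ≠ 0) (hl : l.Prime) (hlf : l.Coprime f) {P : Ideal R}
    (hP : P.IsMaximal) (hlP : (l : R) ∈ P) {φ : G} (hφ : ∀ x : R, φ • x ∈ P ↔ x ∈ P) {Z : R}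
    (hZ : Z ^ f = 1) : ∃ i : ℕ, φ • Z = Z ^ l ^ i := by
  have hfP : (f : R) ∉ P := notMem hlf hP hlP
  let : Field (R ⧸ P) := Ideal.Quotient.field P
  have : Fact l.Prime := ⟨hl⟩
  have : CharP (R ⧸ P) l := by
    refine (CharP.charP_iff_prime_eq_zero hl).2 ?_
    rw [← map_natCast (Ideal.Quotient.mk P)]
    exact Ideal.Quotient.eq_zero_iff_mem.2 hlP
  let ψ : R ⧸ P →+* R ⧸ P := Ideal.Quotient.lift P
    ((Ideal.Quotient.mk P).comp (MulSemiringAction.toRingHom G R φ)) (by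
      intro x hx
      exact Ideal.Quotient.eq_zero_iff_mem.2 ((hφ x).2 hx))
  have hψ1 : ∀ x : R, ψ (Ideal.Quotient.mk P x) = Ideal.Quotient.mk P (φ • x) := fun x => rfl
  have : NeZero f := ⟨hf0⟩
  have h1 : Z ^ l ^ orderOf (ZMod.unitOfCoprime l hlf) = Z := by
    have h2 : l ^ orderOf (ZMod.unitOfCoprime l hlf) ≡ 1 [MOD f] := by
      rw [← ZMod.natCast_eq_natCast_iff]
      have := congrArg (fun v : (ZMod f)ˣ => (v : ZMod f))
        (pow_orderOf_eq_one (ZMod.unitOfCoprime l hlf))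
      simp only [Units.val_pow_eq_pow_val, ZMod.coe_unitOfCoprime, Units.val_one] at this
      push_cast
      exact this
    have h4 : Z ^ l ^ orderOf (ZMod.unitOfCoprime l hlf) = Z ^ 1 := pow_eq_pow_of_modEq h2 hZ
    rw [h4, pow_one]
  obtain ⟨i, hi⟩ := root_frob (l := l) ψ (z := Ideal.Quotient.mk P Z)
    (n := orderOf (ZMod.unitOfCoprime l hlf)) (orderOf_pos _) (by rw [← map_pow, h1])
  refine ⟨i, eq_of_sub_mem hf0 hfP ?_ ?_ ?_⟩
  · rw [← smul_pow', hZ, smul_one]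
  · rw [← pow_mul, mul_comm, pow_mul, hZ, one_pow]
  · rw [hψ1, ← map_pow] at hi
    exact Ideal.Quotient.eq.1 hi

end smul

section field

variable {Ω : Type} [Field Ω] [Algebra ℚ Ω]

theorem coe_smul (σ : Gal(Ω/ℚ)) (x : 𝓞 Ω) : ((σ • x : 𝓞 Ω) : Ω) = σ x := rfl

omit [Algebra ℚ Ω] in
/-- A root of unity as an element of the ring of integers. -/
theorem exists_lift {f : ℕ} (hf0 : f ≠ 0) {z : Ω} (hz : z ^ f = 1) :
    ∃ Z : 𝓞 Ω, (Z : Ω) = z ∧ Z ^ f = 1 := by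
  have hint : IsIntegral ℤ z := by
    refine IsIntegral.of_pow (Nat.pos_of_ne_zero hf0) ?_
    rw [hz]
    exact isIntegral_one
  let Z : 𝓞 Ω := ⟨z, hint⟩
  have hZ : (algebraMap (𝓞 Ω) Ω) Z = z := rfl
  refine ⟨Z, hZ, ?_⟩
  apply RingOfIntegers.ext
  change (algebraMap (𝓞 Ω) Ω) (Z ^ f) = (algebraMap (𝓞 Ω) Ω) 1
  rw [map_pow, map_one, hZ, hz]

theorem part1 {f : ℕ} (hf0 : f ≠ 0) {P : Ideal (𝓞 Ω)} (hf : (f : 𝓞 Ω) ∉ P) {τ : Gal(Ω/ℚ)}
    (hτ : ∀ x : 𝓞 Ω, τ • x - x ∈ P) {z : Ω} (hz : z ^ f = 1) : τ z = z := by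
  obtain ⟨Z, hZ, hZ1⟩ := exists_lift hf0 hz
  have h1 : τ • Z = Z := by
    refine eq_of_sub_mem hf0 hf ?_ hZ1 (hτ Z)
    rw [← smul_pow', hZ1, smul_one]
  have h2 := congrArg (fun x : 𝓞 Ω => (x : Ω)) h1
  simp only [coe_smul, hZ] at h2
  exact h2

theorem cyclo_eq [CharZero Ω] {f : ℕ} [NeZero f] {ζ : Ω} (hζ : IsPrimitiveRoot ζ f) :
    Polynomial.cyclotomic f ℚ = minpoly ℚ ζ := by
  have h := Polynomial.cyclotomic_eq_minpoly_rat hζ (NeZero.pos f)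
  rw [h]
  congr 1
  exact Subsingleton.elim _ _

theorem exists_gal [Normal ℚ Ω] [CharZero Ω] {f : ℕ} [NeZero f] {ζ : Ω}
    (hζ : IsPrimitiveRoot ζ f) {a : ℕ} (ha : a.Coprime f) : ∃ g : Gal(Ω/ℚ), g ζ = ζ ^ a := by
  have h1 : IsConjRoot ℚ (ζ ^ a) ζ := by
    show minpoly ℚ (ζ ^ a) = minpoly ℚ ζ
    rw [← cyclo_eq hζ, ← cyclo_eq (hζ.pow_of_coprime a ha)]
  obtain ⟨σ, hσ⟩ := (isConjRoot_iff_exists_algEquiv).1 h1
  exact ⟨σ, hσ⟩

theorem pow_apply {ζ : Ω} {g : Gal(Ω/ℚ)} {a : ℕ} (hg : g ζ = ζ ^ a) (j : ℕ) :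
    (g ^ j) ζ = ζ ^ a ^ j := by
  induction j with
  | zero => simp
  | succ j ih =>
    rw [pow_succ, AlgEquiv.mul_apply, hg, map_pow, ih, ← pow_mul, ← pow_succ]

theorem core [IsAlgClosure ℚ Ω] (p : ℕ) (hp : p.Prime) (m f : ℕ) (hf0 : f ≠ 0)
    (H : Subgroup Gal(Ω/ℚ)) (hH : ∀ g : Gal(Ω/ℚ), (∀ z : Ω, z ^ f = 1 → g z = z) → g ∈ H) :
    (∀ P : Ideal (𝓞 Ω), P.IsMaximal → (f : 𝓞 Ω) ∉ P → ∀ τ : Gal(Ω/ℚ),
      (∀ x : 𝓞 Ω, τ • x - x ∈ P) → τ ∈ H) ∧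
    ((∀ g : Gal(Ω/ℚ), g ^ p ^ m ∈ H) → ∀ l : ℕ, l.Prime → l.Coprime f →
      (∃ a : ZMod f, a ^ p ^ m = (l : ZMod f)) →
      ∀ P : Ideal (𝓞 Ω), P.IsMaximal → (l : 𝓞 Ω) ∈ P → ∀ φ : Gal(Ω/ℚ),
        (∀ x : 𝓞 Ω, φ • x ∈ P ↔ x ∈ P) → φ ∈ H) := by
  refine ⟨fun P hP hfP τ hτ => hH τ fun z hz => part1 hf0 hfP hτ hz, ?_⟩
  intro hpow l hl hlf ha P hP hlP φ hφ
  have : NeZero f := ⟨hf0⟩
  have : CharZero Ω := algebraRat.charZero Ω
  have : IsAlgClosed Ω := IsAlgClosure.isAlgClosed ℚ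
  obtain ⟨a, ha⟩ := ha
  have : NeZero (f : Ω) := ⟨by exact_mod_cast hf0⟩
  obtain ⟨ζ, hζ⟩ := HasEnoughRootsOfUnity.exists_primitiveRoot Ω f
  obtain ⟨Z, hZ, hZ1⟩ := exists_lift hf0 hζ.pow_eq_one
  obtain ⟨i, hi⟩ := decomp hf0 hl hlf hP hlP hφ hZ1
  have hi' : φ ζ = ζ ^ l ^ i := by
    have h2 := congrArg (fun x : 𝓞 Ω => (x : Ω)) hi
    simp only [coe_smul, hZ, map_pow] at h2
    exact h2
  have hau : IsUnit a := by
    have h1 : IsUnit (a ^ p ^ m) := by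
      rw [ha]
      exact (ZMod.isUnit_iff_coprime l f).2 hlf
    exact (isUnit_pow_iff (pow_ne_zero m hp.ne_zero)).1 h1
  have hac : a.val.Coprime f := by
    rw [← ZMod.isUnit_iff_coprime, ZMod.natCast_zmod_val]
    exact hau
  obtain ⟨g, hg⟩ := exists_gal hζ hac
  have hg1 : (g ^ p ^ m) ζ = ζ ^ l := by
    rw [pow_apply hg]
    refine pow_eq_pow_of_modEq ?_ hζ.pow_eq_one
    rw [← ZMod.natCast_eq_natCast_iff]
    push_cast
    rw [ZMod.natCast_zmod_val, ha]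
  have hg2 : ((g ^ p ^ m) ^ i) ζ = ζ ^ l ^ i := pow_apply hg1 i
  have hG : (g ^ p ^ m) ^ i ∈ H := H.pow_mem (hpow g) i
  have hfix : ((g ^ p ^ m) ^ i)⁻¹ * φ ∈ H := by
    refine hH _ fun z hz => ?_
    obtain ⟨j, -, rfl⟩ := hζ.eq_pow_of_pow_eq_one hz
    have h1 : (((g ^ p ^ m) ^ i)⁻¹ * φ) ζ = ζ := by
      rw [AlgEquiv.mul_apply, hi', ← hg2, ← AlgEquiv.mul_apply, inv_mul_cancel, AlgEquiv.one_apply]
    rw [map_pow, h1]
  have := H.mul_mem hG hfix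
  rwa [mul_inv_cancel_left] at this

end field

/-- CYC. -/
theorem t : Pool.Agent.Y803.SEL.S_CYC := fun p hp m f hf0 H hH =>
  core (Ω := AlgebraicClosure ℚ) p hp.out m f hf0 H hH

end Pool.Agent.Y674.SEL.Cyc
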